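import Pool.Agent.H24.EG.Corr

/-!
Eigenfunctions of the components of a Furstenberg system (MP_34b97f_an): the components are
invariant; eigenfunctions.
-/

set_option autoImplicit false

open MeasureTheory ProbabilityTheory Filter Topology Finset
open scoped ENNReal

namespace Pool.Agent.H24.EG

open Pool.Agent.H89.MT (I1 X pt lavg QuasiGeneric z1)
open Pool.Agent.H83.W (S S_cont)
open Pool.Agent.H6.N4D (ee norm_ee ee_add)

/-- the invariant sets -/
abbrev IS : MeasurableSpace X := MeasurableSpace.invariants S

theorem IS_le : IS ≤ (MeasurableSpace.pi : MeasurableSpace X) := fun _ hs => hs.1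

/-- the components -/
noncomputable def comp (κ : Measure X) [IsProbabilityMeasure κ] (x : X) : Measure X :=
  condExpKernel κ (MeasurableSpace.invariants S) x

theorem S_meas : Measurable S := S_cont.measurable

/-- invariance of the components on a fixed set -/
theorem comp_preimage (κ : Measure X) [IsProbabilityMeasure κ] (hS : MeasurePreserving S κ κ)
    {B : Set X} (hB : MeasurableSet B) : ∀ᵐ x ∂κ, comp κ x (S ⁻¹' B) = comp κ x B := by
  have h1 := condExpKernel_ae_eq_condExp (μ := κ) IS_le hB
  have h2 := condExpKernel_ae_eq_condExp (μ := κ) IS_le (S_meas hB)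
  have h3 : κ[((S ⁻¹' B).indicator fun _ => (1 : ℝ)) | IS]
      =ᵐ[κ] κ[(B.indicator fun _ => (1 : ℝ)) | IS] := by
    apply ae_eq_condExp_of_forall_setIntegral_eq IS_le
    · exact (integrable_const (1 : ℝ)).indicator hB
    · intro s _ _
      exact integrable_condExp.integrableOn
    · intro s hs _
      rw [setIntegral_condExp IS_le ((integrable_const (1 : ℝ)).indicator (S_meas hB)) hs]
      rw [integral_indicator (S_meas hB), integral_indicator hB,
        Measure.restrict_restrict (S_meas hB), Measure.restrict_restrict hB]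
      simp only [integral_const, smul_eq_mul, mul_one]
      unfold Measure.real
      rw [Measure.restrict_apply MeasurableSet.univ, Measure.restrict_apply MeasurableSet.univ,
        Set.univ_inter, Set.univ_inter]
      congr 1
      have h4 : S ⁻¹' B ∩ s = S ⁻¹' (B ∩ s) := by
        rw [Set.preimage_inter, hs.2]
      rw [h4, hS.measure_preimage (hB.inter hs.1).nullMeasurableSet]
    · exact stronglyMeasurable_condExp.aestronglyMeasurable
  filter_upwards [h1, h2, h3] with x h1 h2 h3
  have h5 : (comp κ x).real (S ⁻¹' B) = (comp κ x).real B := by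
    unfold comp
    rw [h1, h2, h3]
  have : IsProbabilityMeasure (comp κ x) := by unfold comp; infer_instance
  exact (measureReal_eq_measureReal_iff).mp h5

/-- a countable algebra generating the Borel sets -/
def Alg : Set (Set X) := generateSetAlgebra (MeasurableSpace.countableGeneratingSet X)

theorem alg_countable : Alg.Countable :=
  countable_generateSetAlgebra MeasurableSpace.countable_countableGeneratingSet

theorem alg_gen : (MeasurableSpace.pi : MeasurableSpace X) = MeasurableSpace.generateFrom Alg := by
  unfold Alg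
  rw [generateFrom_generateSetAlgebra_eq, MeasurableSpace.generateFrom_countableGeneratingSet]

theorem alg_meas {B : Set X} (hB : B ∈ Alg) : MeasurableSet B := by
  rw [alg_gen]
  exact MeasurableSpace.measurableSet_generateFrom hB

theorem alg_pi : IsPiSystem Alg := by
  intro s hs t ht _
  exact isSetAlgebra_generateSetAlgebra.inter_mem hs ht

/-- almost all components are invariant -/
theorem comp_mp (κ : Measure X) [IsProbabilityMeasure κ] (hS : MeasurePreserving S κ κ) :
    ∀ᵐ x ∂κ, MeasurePreserving S (comp κ x) (comp κ x) := by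
  have h1 : ∀ᵐ x ∂κ, ∀ B ∈ Alg, comp κ x (S ⁻¹' B) = comp κ x B := by
    rw [ae_ball_iff alg_countable]
    intro B hB
    exact comp_preimage κ hS (alg_meas hB)
  filter_upwards [h1] with x hx
  refine ⟨S_meas, ?_⟩
  have : IsProbabilityMeasure (comp κ x) := by unfold comp; infer_instance
  have : IsProbabilityMeasure ((comp κ x).map S) :=
    Measure.isProbabilityMeasure_map S_meas.aemeasurable
  apply ext_of_generate_finite Alg alg_gen alg_pi
  · intro B hB
    rw [Measure.map_apply S_meas (alg_meas hB)]
    exact hx B hB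
  · rw [measure_univ, measure_univ]

/-- an eigenfunction along the iterates of the shift -/
theorem eig_iter {ν : Measure X} (hS : MeasurePreserving S ν ν) {θ : ℝ} {F : X → ℂ}
    (hE : ∀ᵐ y ∂ν, F (S y) = ee θ * F y) (h : ℕ) :
    ∀ᵐ y ∂ν, F (S^[h] y) = ee (θ * h) * F y := by
  induction h with
  | zero =>
    refine Eventually.of_forall fun y => ?_
    have : ee (θ * ((0 : ℕ) : ℝ)) = 1 := by
      rw [Nat.cast_zero, mul_zero, Pool.Agent.H93.EB.ee_zero]
    rw [this, one_mul, Function.iterate_zero, id]
  | succ h ih =>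
    have h1 := (hS.iterate h).quasiMeasurePreserving.ae hE
    filter_upwards [h1, ih] with y hy hy2
    rw [Function.iterate_succ_apply', hy, hy2, ← mul_assoc, ← ee_add]
    congr 2
    push_cast
    ring

theorem iter_S (h : ℕ) (x : X) (t : ℤ) : (S^[h] x) t = x (t + h) := by
  induction h generalizing x t with
  | zero => simp
  | succ h ih =>
    rw [Function.iterate_succ_apply, ih]
    unfold S
    congr 1
    push_cast
    ring

/-- the correlation of the zeroth coordinate with an eigenfunction is at most the mean of the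
largest correlation of the points -/
theorem eig_le {ν : Measure X} [IsProbabilityMeasure ν] (hS : MeasurePreserving S ν ν) {θ : ℝ}
    {F : X → ℂ} (hF : Measurable F) (hb : ∀ y, ‖F y‖ ≤ 1)
    (hE : ∀ᵐ y ∂ν, F (S y) = ee θ * F y) {H : ℕ} (hH : 0 < H) :
    ‖∫ y, ((y 0 : ℝ) : ℂ) * F y ∂ν‖ ≤ ∫ y, MX H y ∂ν := by
  have hc : ∀ m : ℤ, Measurable fun y : X => ((y m : ℝ) : ℂ) := fun m =>
    Complex.measurable_ofReal.comp (measurable_subtype_coe.comp (measurable_pi_apply m))
  have hcb : ∀ (m : ℤ) (y : X), ‖((y m : ℝ) : ℂ)‖ ≤ 1 := fun m y => by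
    rw [Complex.norm_real, Real.norm_eq_abs]; exact abs_x y m
  -- all coordinates have the same correlation
  have h1 : ∀ h : ℕ, ∫ y, ((y 0 : ℝ) : ℂ) * F y ∂ν =
      ∫ y, ((y (h : ℤ) : ℝ) : ℂ) * ee (θ * h) * F y ∂ν := by
    intro h
    have hmp := hS.iterate h
    calc ∫ y, ((y 0 : ℝ) : ℂ) * F y ∂ν = ∫ y, ((y 0 : ℝ) : ℂ) * F y ∂(ν.map (S^[h])) := by
          rw [hmp.map_eq]
      _ = ∫ y, (((S^[h] y) 0 : ℝ) : ℂ) * F (S^[h] y) ∂ν := by
          rw [integral_map hmp.measurable.aemeasurable]
          exact ((hc 0).mul hF).aestronglyMeasurable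
      _ = _ := by
          refine integral_congr_ae ?_
          filter_upwards [eig_iter hS hE h] with y hy
          rw [hy, iter_S, zero_add, mul_assoc]
  have hint : ∀ h : ℕ, Integrable (fun y => ((y (h : ℤ) : ℝ) : ℂ) * ee (θ * h) * F y) ν := by
    intro h
    refine Integrable.of_bound (C := 1)
      ((((hc h).mul measurable_const).mul hF).aestronglyMeasurable)
      (Eventually.of_forall fun y => ?_)
    rw [norm_mul, norm_mul, norm_ee, mul_one]
    exact mul_le_one₀ (hcb h y) (norm_nonneg _) (hb y)
  -- the mean over the window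
  have hH0 : (H : ℂ) ≠ 0 := by exact_mod_cast hH.ne'
  have h2 : ∫ y, ((y 0 : ℝ) : ℂ) * F y ∂ν = ∫ y, crX H y (-θ) * F y ∂ν := by
    have h3 : ∀ y, crX H y (-θ) * F y =
        (∑ m ∈ Ioc 0 H, ((y (m : ℤ) : ℝ) : ℂ) * ee (θ * m) * F y) / H := by
      intro y
      unfold crX
      rw [div_mul_eq_mul_div, Finset.sum_mul]
      congr 1
      refine Finset.sum_congr rfl fun m _ => ?_
      congr 3
      ring
    simp only [h3]
    rw [integral_div, integral_finsetSum _ fun m _ => hint m]
    rw [Finset.sum_congr rfl fun m _ => (h1 m).symm]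
    rw [Finset.sum_const, Nat.card_Ioc, Nat.sub_zero, nsmul_eq_mul, mul_div_cancel_left₀ _ hH0]
  rw [h2]
  refine norm_integral_le_of_norm_le ?_ (Eventually.of_forall fun y => ?_)
  · refine Integrable.of_bound (C := 1) (MX_cont H).aestronglyMeasurable
      (Eventually.of_forall fun y => ?_)
    rw [Real.norm_eq_abs, abs_of_nonneg (MX_nonneg H y)]
    exact MX_le_one H y
  · rw [norm_mul]
    calc ‖crX H y (-θ)‖ * ‖F y‖ ≤ MX H y * 1 :=
          mul_le_mul (le_MX H y _) (hb y) (norm_nonneg _) (MX_nonneg H y)
      _ = MX H y := mul_one _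

end Pool.Agent.H24.EG
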