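import Pool.Agent.H83.W.QG
import Pool.Agent.H93.EB.Basic
import Pool.Agent.H93.EB.Targets

/-!
Eigenfunctions of the components of a Furstenberg system (MP_34b97f_an): the largest correlation
of a point with a frequency.
-/

set_option autoImplicit false

open MeasureTheory ProbabilityTheory Filter Topology Finset

namespace Pool.Agent.H24.EG

open Pool.Agent.H89.MT (I1 X pt lavg QuasiGeneric z1)
open Pool.Agent.H6.N4D (ee norm_ee ee_add)
open Pool.Agent.H93.EB (M cr continuous_ee)

/-- the correlation of the point with a frequency -/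
noncomputable def crX (H : ℕ) (x : X) (θ : ℝ) : ℂ :=
  (∑ m ∈ Ioc 0 H, ((x (m : ℤ) : ℝ) : ℂ) * ee (-(θ * m))) / H

/-- the largest correlation -/
noncomputable def MX (H : ℕ) (x : X) : ℝ := ⨆ θ : ℝ, ‖crX H x θ‖

theorem abs_x (x : X) (m : ℤ) : |(x m : ℝ)| ≤ 1 := abs_le.2 (x m).2

theorem norm_crX_le (H : ℕ) (x : X) (θ : ℝ) : ‖crX H x θ‖ ≤ 1 := by
  unfold crX
  rcases Nat.eq_zero_or_pos H with h | h
  · subst h; simp
  · have hN : (0 : ℝ) < H := by exact_mod_cast h
    rw [norm_div, Complex.norm_natCast, div_le_one hN]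
    refine (norm_sum_le _ _).trans ?_
    have h1 : ∀ m ∈ Ioc 0 H, ‖((x (m : ℤ) : ℝ) : ℂ) * ee (-(θ * m))‖ ≤ 1 := by
      intro m _
      rw [norm_mul, norm_ee, mul_one, Complex.norm_real, Real.norm_eq_abs]
      exact abs_x x m
    refine (Finset.sum_le_sum h1).trans ?_
    simp

theorem bdd (H : ℕ) (x : X) : BddAbove (Set.range fun θ : ℝ => ‖crX H x θ‖) :=
  ⟨1, by rintro y ⟨θ, rfl⟩; exact norm_crX_le H x θ⟩

theorem le_MX (H : ℕ) (x : X) (θ : ℝ) : ‖crX H x θ‖ ≤ MX H x := le_ciSup (bdd H x) θ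

theorem MX_nonneg (H : ℕ) (x : X) : 0 ≤ MX H x := (norm_nonneg _).trans (le_MX H x 0)

theorem MX_le_one (H : ℕ) (x : X) : MX H x ≤ 1 := ciSup_le fun θ => norm_crX_le H x θ

/-- the distance on the window -/
noncomputable def dX (H : ℕ) (x y : X) : ℝ :=
  (∑ m ∈ Ioc 0 H, |(x (m : ℤ) : ℝ) - (y (m : ℤ) : ℝ)|) / H

theorem MX_le (H : ℕ) (x y : X) : MX H x ≤ MX H y + dX H x y := by
  refine ciSup_le fun θ => ?_
  have h1 : ‖crX H x θ - crX H y θ‖ ≤ dX H x y := by
    unfold crX dX
    rw [← sub_div, norm_div, Complex.norm_natCast, ← Finset.sum_sub_distrib]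
    apply div_le_div_of_nonneg_right _ (by positivity)
    refine (norm_sum_le _ _).trans (le_of_eq ?_)
    refine Finset.sum_congr rfl fun m _ => ?_
    rw [← sub_mul, norm_mul, norm_ee, mul_one, ← Complex.ofReal_sub, Complex.norm_real,
      Real.norm_eq_abs]
  have h2 := le_MX H y θ
  have h3 := norm_sub_norm_le (crX H x θ) (crX H y θ)
  linarith

theorem dX_comm (H : ℕ) (x y : X) : dX H x y = dX H y x := by
  unfold dX
  congr 1
  exact Finset.sum_congr rfl fun m _ => abs_sub_comm _ _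

theorem MX_cont (H : ℕ) : Continuous (MX H) := by
  rw [continuous_iff_continuousAt]
  intro x
  unfold ContinuousAt
  rw [tendsto_iff_dist_tendsto_zero]
  have hc : Continuous fun y : X => dX H y x := by
    unfold dX
    refine Continuous.div_const (continuous_finsetSum _ fun m _ => ?_) _
    exact ((continuous_subtype_val.comp (continuous_apply (m : ℤ))).sub continuous_const).abs
  have h0 : dX H x x = 0 := by simp [dX]
  have hlim : Tendsto (fun y : X => dX H y x) (𝓝 x) (𝓝 0) := by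
    have := hc.tendsto x
    rwa [h0] at this
  refine squeeze_zero (fun y => dist_nonneg) (fun y => ?_) hlim
  rw [Real.dist_eq, abs_le]
  have h1 := MX_le H x y
  have h2 := MX_le H y x
  rw [dX_comm H x y] at h1
  constructor <;> linarith

/-- the correlation at a point of the orbit -/
theorem crX_pt (u : ℕ → I1) (lam : ℕ → ℝ) (h : ∀ n, 0 < n → lam n = (u n : ℝ)) (H n : ℕ) (θ : ℝ) :
    crX H (pt u n) θ = ee (θ * n) * cr lam H n θ := by
  unfold crX cr
  rw [← mul_div_assoc, Finset.mul_sum]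
  congr 1
  refine Finset.sum_nbij' (fun m => n + m) (fun m => m - n) ?_ ?_ ?_ ?_ ?_
  · intro m hm; rw [Finset.mem_Ioc] at hm ⊢; omega
  · intro m hm; rw [Finset.mem_Ioc] at hm ⊢; omega
  · intro m _; show n + m - n = m; omega
  · intro m hm; rw [Finset.mem_Ioc] at hm; show n + (m - n) = m; omega
  · intro m hm
    rw [Finset.mem_Ioc] at hm
    have h1 : (pt u n (m : ℤ) : ℝ) = lam (n + m) := by
      unfold pt
      rw [if_pos (by omega), h (n + m) (by omega)]
      congr 2
    rw [h1, mul_left_comm, ← ee_add]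
    congr 2
    push_cast
    ring

theorem MX_pt (u : ℕ → I1) (lam : ℕ → ℝ) (h : ∀ n, 0 < n → lam n = (u n : ℝ)) (H n : ℕ) :
    MX H (pt u n) = M lam H n := by
  unfold MX M
  congr 1
  funext θ
  rw [crX_pt u lam h, norm_mul, norm_ee, one_mul]

/-- quasi-generic measures: the mean of the largest correlation -/
theorem int_le {u : ℕ → I1} {κ : Measure X} (hκ : QuasiGeneric u κ) (lam : ℕ → ℝ)
    (h : ∀ n, 0 < n → lam n = (u n : ℝ)) (H X₀ : ℕ) (c : ℝ)
    (hX : ∀ X, X₀ ≤ X → Pool.Agent.H93.EB.lg X (fun n => M lam H n) ≤ c * Real.log X) :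
    ∫ x, MX H x ∂κ ≤ c := by
  have := hκ.1
  obtain ⟨N, hN, hF⟩ := hκ.2
  have h1 := hF ⟨MX H, MX_cont H⟩
  simp only [ContinuousMap.coe_mk] at h1
  have hlog : Tendsto (fun k => Real.log (N k)) atTop atTop :=
    Real.tendsto_log_atTop.comp (tendsto_natCast_atTop_atTop.comp hN)
  refine le_of_tendsto h1 ?_
  filter_upwards [hlog.eventually_gt_atTop 0, hN.eventually_ge_atTop X₀] with k hk hk2
  unfold lavg
  rw [div_le_iff₀ hk]
  have h2 := hX (N k) hk2
  unfold Pool.Agent.H93.EB.lg at h2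
  refine le_trans (le_of_eq ?_) h2
  refine Finset.sum_congr rfl fun n _ => ?_
  show MX H (pt u n) / (n : ℝ) = M lam H n / n
  rw [MX_pt u lam h]

end Pool.Agent.H24.EG
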