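import Pool.Agent.H24.EG.Comp

/-!
Eigenfunctions of the components of a Furstenberg system of Liouville's function
(MP_34b97f_an), from local Fourier uniformity with a constant gap.
-/

set_option autoImplicit false

open MeasureTheory ProbabilityTheory Filter Topology Finset
open scoped ENNReal

namespace Pool.Agent.H24.EG

open Pool.Agent.H89.MT (I1 X pt lavg QuasiGeneric z1)
open Pool.Agent.H83.W (S S_cont qg_mp)
open Pool.Agent.H6.N4D (ee Lio)
open Pool.Agent.H93.EB (M lg T_FIN2)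

/-- the Liouville function, with the value `1` at `0` -/
noncomputable def lio (n : ℕ) : ℝ := if n = 0 then 1 else (-1) ^ ArithmeticFunction.cardFactors n

theorem lio_Lio : Lio lio := by
  refine ⟨fun n => ?_, fun p n hp hn => ?_⟩
  · unfold lio
    split_ifs
    · exact Or.inl rfl
    · exact neg_one_pow_eq_or ℝ _
  · unfold lio
    have hp0 : p ≠ 0 := hp.ne_zero
    have hn0 : n ≠ 0 := by omega
    rw [if_neg (Nat.mul_ne_zero hp0 hn0), if_neg hn0,
      ArithmeticFunction.cardFactors_mul hp0 hn0, ArithmeticFunction.cardFactors_apply_prime hp,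
      pow_add, pow_one]
    ring

/-- the mean over the components of the largest correlation with an eigenfunction -/
theorem main (h2 : T_FIN2) : ∃ c : ℝ, 0 < c ∧ ∀ u : ℕ → I1,
    (∀ n, 0 < n → (u n : ℝ) = (-1) ^ ArithmeticFunction.cardFactors n) →
    ∀ (κ : Measure X) [IsProbabilityMeasure κ], QuasiGeneric u κ →
    ∃ G : X → ℝ, Measurable G ∧ (∀ x, 0 ≤ G x ∧ G x ≤ 1) ∧ ∫ x, G x ∂κ ≤ 2 / Real.pi - c ∧
      ∀ᵐ x ∂κ, ∀ (θ : ℝ) (F : X → ℂ), Measurable F → (∀ y, ‖F y‖ ≤ 1) →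
        (∀ᵐ y ∂comp κ x, F (S y) = ee θ * F y) →
        ‖∫ y, ((y 0 : ℝ) : ℂ) * F y ∂comp κ x‖ ≤ G x := by
  obtain ⟨c, H₀, hc, h2⟩ := h2
  refine ⟨c, hc, fun u hu κ _ hκ => ?_⟩
  obtain ⟨X₀, hX⟩ := h2 (H₀ + 1) (Nat.le_succ _)
  have hP : ∀ x, IsProbabilityMeasure (comp κ x) := fun x => by unfold comp; infer_instance
  have hlio : ∀ n, 0 < n → lio n = (u n : ℝ) := by
    intro n hn
    rw [hu n hn]
    unfold lio
    rw [if_neg (by omega)]
  have hI : ∫ x, MX (H₀ + 1) x ∂κ ≤ 2 / Real.pi - c :=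
    int_le hκ lio hlio (H₀ + 1) X₀ _ fun X hX0 => hX X lio hX0 lio_Lio
  have hMi : Integrable (MX (H₀ + 1)) κ := by
    refine Integrable.of_bound (C := 1) (MX_cont _).aestronglyMeasurable
      (Eventually.of_forall fun y => ?_)
    rw [Real.norm_eq_abs, abs_of_nonneg (MX_nonneg _ y)]
    exact MX_le_one _ y
  refine ⟨fun x => ∫ y, MX (H₀ + 1) y ∂comp κ x, ?_, ?_, ?_, ?_⟩
  · have h3 := StronglyMeasurable.integral_condExpKernel (μ := κ) (m := IS)
      (MX_cont (H₀ + 1)).measurable.stronglyMeasurable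
    exact (h3.mono IS_le).measurable
  · intro x
    refine ⟨integral_nonneg fun y => MX_nonneg _ y, ?_⟩
    calc ∫ y, MX (H₀ + 1) y ∂comp κ x ≤ ∫ _y, (1 : ℝ) ∂comp κ x := by
          refine integral_mono_of_nonneg (Eventually.of_forall fun y => MX_nonneg _ y)
            (integrable_const _) (Eventually.of_forall fun y => MX_le_one _ y)
      _ = 1 := by simp
  · have h3 := condExp_ae_eq_integral_condExpKernel (μ := κ) IS_le hMi
    have h4 : ∫ x, ∫ y, MX (H₀ + 1) y ∂comp κ x ∂κ = ∫ x, MX (H₀ + 1) x ∂κ := by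
      rw [← integral_condExp (μ := κ) (f := MX (H₀ + 1)) IS_le]
      exact (integral_congr_ae h3).symm
    rw [h4]
    exact hI
  · filter_upwards [comp_mp κ (qg_mp hκ)] with x hx θ F hF hb hE
    exact eig_le hx hF hb hE (Nat.succ_pos H₀)

end Pool.Agent.H24.EG
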